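import Pool.Agent.helper86.OF.SpecB

/-!
# Project of, module TA1: the template if there is a vertex of small degree
-/

open scoped BigOperators

namespace Pool.Agent.OF

noncomputable section

open Classical

theorem TA1_dgs_le {V : Type} [Fintype V] (G : SimpleGraph V) (S : Finset V) (v : V) :
    dgs G S v ≤ dg G v :=
  Finset.card_le_card (Finset.filter_subset_filter _ (Finset.subset_univ S))

theorem TA1_dg_lt {V : Type} [Fintype V] (G : SimpleGraph V) (v : V) :
    dg G v < Fintype.card V := by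
  have h1 : (Finset.univ.filter fun w => G.Adj v w) ⊂ (Finset.univ : Finset V) := by
    rw [Finset.ssubset_univ_iff]
    intro h
    have h2 : v ∈ (Finset.univ.filter fun w => G.Adj v w) := by
      rw [h]
      exact Finset.mem_univ v
    exact G.loopless.irrefl v (Finset.mem_filter.1 h2).2
  exact Finset.card_lt_card h1

theorem TA1_mem_XT {V : Type} {X : Finset V} {D : ℕ} {v : V} :
    (Sum.inl v : PT V D) ∈ XT X D ↔ v ∈ X := by
  unfold XT
  constructor
  · intro h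
    obtain ⟨w, hw, h1⟩ := Finset.mem_map.1 h
    have h2 : w = v := Sum.inl_injective h1
    rw [← h2]
    exact hw
  · intro h
    exact Finset.mem_map.2 ⟨v, h, rfl⟩

theorem TA1_mem_XT' {V : Type} {X : Finset V} {D : ℕ} {z : PT V D} (h : z ∈ XT X D) :
    ∃ v ∈ X, z = Sum.inl v := by
  obtain ⟨w, hw, h1⟩ := Finset.mem_map.1 h
  exact ⟨w, hw, h1.symm⟩

theorem TA1_compl {α : Type} [Fintype α] (i j : DecidableEq α) (S : Finset α) :
    (letI := i; Sᶜ) = (letI := j; Sᶜ) := by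
  rw [Subsingleton.elim i j]

theorem TA1_union {α : Type} (i j : DecidableEq α) (S T : Finset α) :
    (letI := i; S ∪ T) = (letI := j; S ∪ T) := by
  rw [Subsingleton.elim i j]

/-- module TA1 -/
theorem TA1 (hBLM : BLM_stmt) (hVF : VF_stmt) (hINI : INI_stmt) (hTKD : TKD_stmt)
    (hCNA : CNA_stmt) (hBKE : BKE_stmt) (hCNB : CNB_stmt) : TA1_stmt := by
  intro ε ρ C hε hρ hρε hC
  obtain ⟨N1, hN1⟩ := hVF ρ C (ρ / 10) hρ hC (by positivity)
  set B : ℝ := C / ρ + 1 with hB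
  have hCρ : 0 < C / ρ := by positivity
  obtain ⟨N2, hN2⟩ := exists_nat_gt ((10 * (C / ρ) ^ 2 + 1000 * B ^ 2 + 1) / ρ)
  obtain ⟨U, hU⟩ := exists_nat_gt (2 * C + 5 + (C / ρ) ^ 2)
  refine ⟨U, max N1 N2, ?_⟩
  intro V _ G D X hN hcrit hD hX hy hsum
  set N : ℕ := Fintype.card V with hNdef
  have hN1' : N1 ≤ N := (le_max_left _ _).trans hN
  have hN2' : N2 ≤ N := (le_max_right _ _).trans hN
  obtain ⟨hyy, hxx, hnb⟩ := hN1 V G D X hN1' hcrit hX hsum
  have hNr : (10 * (C / ρ) ^ 2 + 1000 * B ^ 2 + 1) < ρ * N := by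
    have h1 : ((10 * (C / ρ) ^ 2 + 1000 * B ^ 2 + 1) / ρ) < (N : ℝ) :=
      hN2.trans_le (by exact_mod_cast hN2')
    rw [div_lt_iff₀ hρ] at h1
    linarith
  have hB1 : 1 ≤ B := by rw [hB]; linarith
  have hρN : 0 < ρ * (N : ℝ) := by nlinarith [sq_nonneg (C / ρ), sq_nonneg B]
  have hNpos : (0 : ℝ) < N := by
    by_contra h
    have : (N : ℝ) ≤ 0 := not_lt.1 h
    nlinarith
  obtain ⟨y0, hy0⟩ := hy
  obtain ⟨x0, hxy, hx0D⟩ := hnb y0
  have hx0X : x0 ∈ X := by
    rw [hX, hx0D]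
    linarith
  have hy0X : y0 ∉ X := by
    intro h
    have h1 := (hX y0).1 h
    linarith
  have hDle : ∀ v, dg G v ≤ D := hcrit.deg
  have hDN : D < N := by
    rw [← hx0D]
    exact TA1_dg_lt G x0
  have hDN' : (N : ℝ) / 2 ≤ D := by
    have : (1 / 2 + ε) * (N : ℝ) = N / 2 + ε * N := by ring
    have h2 : 0 < ε * (N : ℝ) := by positivity
    linarith
  have hDpos : (0 : ℝ) < D := by linarith
  have hD1 : 1 ≤ D := by
    have : 0 < D := by exact_mod_cast hDpos
    omega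
  obtain ⟨hk1, hk2, hk3, hk4, hk5, hk6⟩ := hTKD V G D X hDle
  rw [TA1_compl _ (fun a b => propDecidable (a = b)) (XT X D)] at hk4 hk5
  -- sizes at the vertices of `X`
  have hXsmall : ∀ x ∈ X, (dgs G Xᶜ x : ℝ) + ((D - dg G x : ℕ) : ℝ) ≤ 11 / 10 * (ρ * N) := by
    intro x hx
    have h1 := hxx x hx
    have h2 := (hX x).1 hx
    rw [Nat.cast_sub (hDle x)]
    linarith
  have hBH : BHyp (tokG G X D) (XT X D) D (Sum.inl x0) (Sum.inl y0) (ρ * N) B := by
    refine ⟨hk6, TA1_mem_XT.2 hx0X, fun h => hy0X (TA1_mem_XT.1 h), ?_, ?_, ?_, ?_, ?_, ?_, hB1, ?_⟩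
    · refine (SimpleGraph.fromRel_adj _ _ _).2 ⟨?_, Or.inl ?_⟩
      · intro h
        have h1 : x0 = y0 := Sum.inl_injective h
        rw [h1] at hx0X
        exact hy0X hx0X
      · exact ⟨hxy.symm, fun h => hy0X h.2⟩
    · rintro (v | z)
      · by_cases hv : v ∈ X
        · rw [hk1 v hv]
          have h1 := TA1_dgs_le G Xᶜ v
          have h2 := hDle v
          omega
        · rw [hk2 v hv]
          exact hDle v
      · exact (hk3 z).trans hD1
    · rw [hk2 y0 hy0X]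
      exact hy0
    · intro z hz
      obtain ⟨x, hx, rfl⟩ := TA1_mem_XT' hz
      rw [hk1 x hx, Nat.cast_add]
      exact hXsmall x hx
    · rw [hk5]
      nlinarith [sq_nonneg B]
    · rw [hk4]
      have h1 : B * (ρ * N) = C * N + ρ * N := by
        rw [hB]
        field_simp
      rw [h1, add_comm (ep G X Xᶜ)]
      linarith
    · nlinarith [sq_nonneg (C / ρ)]
  have hini := hINI V G D X x0 y0 hDle hx0X hy0X hxy.symm hx0D (hcrit.del x0 y0 hxy.symm)
  rcases hBLM (PT V D) (tokG G X D) (XT X D) D X.card (Sum.inl x0) (Sum.inl y0) (ρ * N) B hBH hini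
    with hgood | ⟨Q, hQ1, hQ2, hQ3⟩
  · right
    obtain ⟨c, hc1, hc2, hc3⟩ := hBKE (PT V D) (tokG G X D) (XT X D) D X.card hk6 hgood
    refine hCNB V G D X U (ε / 2) hDle c hc1 hc2 ?_ ?_ ?_
    · intro i hi
      have h1 := hc3 i hi
      rw [hk4] at h1
      have h2 : ((D * nX (tokG G X D) c (XT X D) i : ℕ) : ℝ) ≤
          ((ep G X Xᶜ + ∑ x ∈ X, (D - dg G x) + 5 * D : ℕ) : ℝ) := by exact_mod_cast h1
      have h3 : ((ep G X Xᶜ + ∑ x ∈ X, (D - dg G x) + 5 * D : ℕ) : ℝ) ≤ (2 * C + 5) * D := by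
        have h4 : ((ep G X Xᶜ + ∑ x ∈ X, (D - dg G x) + 5 * D : ℕ) : ℝ) =
            ((∑ x ∈ X, (D - dg G x) + ep G X Xᶜ : ℕ) : ℝ) + 5 * D := by
          push_cast
          ring
        rw [h4]
        nlinarith
      have h5 : (D : ℝ) * (nX (tokG G X D) c (XT X D) i : ℝ) ≤ D * (2 * C + 5) := by
        push_cast at h2 h3 ⊢
        linarith
      have h6 : (nX (tokG G X D) c (XT X D) i : ℝ) ≤ 2 * C + 5 := le_of_mul_le_mul_left h5 hDpos
      have h7 : (nX (tokG G X D) c (XT X D) i : ℝ) ≤ U := by nlinarith [sq_nonneg (C / ρ)]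
      exact_mod_cast h7
    · have h7 : (ep G Xᶜ Xᶜ : ℝ) ≤ U := by linarith
      exact_mod_cast h7
    · intro x hx
      refine (hXsmall x hx).trans ?_
      have h8 : ρ * (N : ℝ) ≤ ε / 8 * N := mul_le_mul_of_nonneg_right hρε hNpos.le
      have h9 : 0 < ε * (N : ℝ) := by positivity
      linarith
  · left
    refine hCNA V G D X hDle Q hQ1 hQ2 ?_
    rw [TA1_union _ (fun a b => propDecidable (a = b)) (XT X D) Q,
      TA1_compl _ (fun a b => propDecidable (a = b)) _]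
    exact hQ3

end

end Pool.Agent.OF
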